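import Pool.Agent.Lib.MP_98c801_an.Minimizer

/-!
# Saddle-shaped solutions of the Allen-Cahn equation are minimizers in `ℝ^{2m}`, `m ≥ 5`
-/

namespace Pool.Agent.Results.MP_98c801_an.SaddleMinimizer

open Real Set MeasureTheory Filter Topology Metric
open scoped ENNReal ContDiff

noncomputable section

/-- `ℝ^{2m}`. The coordinates `x (Sum.inl i)` are `x_1, …, x_m` and the coordinates
`x (Sum.inr i)` are `x_{m+1}, …, x_{2m}`. -/
abbrev E (m : ℕ) := EuclideanSpace ℝ (Fin m ⊕ Fin m)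

/-- `s = √(x_1² + ⋯ + x_m²)` -/
def sCoord {m : ℕ} (x : E m) : ℝ := √(∑ i : Fin m, x (Sum.inl i) ^ 2)

/-- `t = √(x_{m+1}² + ⋯ + x_{2m}²)` -/
def tCoord {m : ℕ} (x : E m) : ℝ := √(∑ i : Fin m, x (Sum.inr i) ^ 2)

/-- `u` is a saddle-shaped solution: a `C²` solution of `-Δu = u - u³` in `ℝ^{2m}` which depends
only on `(s, t)`, is positive in `{s > t}` and satisfies `u(s, t) = -u(t, s)`. -/
structure IsSaddleShaped (m : ℕ) (u : E m → ℝ) : Prop where
  contDiff : ContDiff ℝ 2 u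
  equation : ∀ x, -(Laplacian.laplacian u x) = u x - u x ^ 3
  depends : ∀ x y, sCoord x = sCoord y → tCoord x = tCoord y → u x = u y
  pos : ∀ x, tCoord x < sCoord x → 0 < u x
  odd : ∀ x y, sCoord x = tCoord y → tCoord x = sCoord y → u x = -u y

/-- `φ ∈ H¹₀(B)` with weak gradient `G`: the pair `(φ, G)` is the limit in `L²(B)` of the pairs
`(φ_n, ∇φ_n)` for a sequence of test functions `φ_n ∈ C_c^∞(B)`. -/
structure IsH10 {m : ℕ} (B : Set (E m)) (φ : E m → ℝ) (G : E m → E m) : Prop where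
  memLp : MemLp φ 2 (volume.restrict B)
  memLp_grad : MemLp G 2 (volume.restrict B)
  approx : ∃ φn : ℕ → E m → ℝ,
    (∀ n, ContDiff ℝ ∞ (φn n) ∧ HasCompactSupport (φn n) ∧ tsupport (φn n) ⊆ B) ∧
    Tendsto (fun n => eLpNorm (fun x => φn n x - φ x) 2 (volume.restrict B)) atTop (𝓝 0) ∧
    Tendsto (fun n => eLpNorm (fun x => gradient (φn n) x - G x) 2 (volume.restrict B))
      atTop (𝓝 0)

/-- The energy `E(v, B) = ∫_B (½ |∇v|² + ¼ (1 - v²)²) dx`, where `G` is the gradient of `v`. -/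
def energy {m : ℕ} (B : Set (E m)) (v : E m → ℝ) (G : E m → E m) : ℝ≥0∞ :=
  ∫⁻ x in B, ENNReal.ofReal (1 / 2 * ‖G x‖ ^ 2 + 1 / 4 * (1 - v x ^ 2) ^ 2)

/-- `u` is a minimizer: for every open ball `B`, and every `v` in `u + H¹₀(B)` (that is,
`v ∈ H¹(B)` with `v = u` on `∂B`) with weak gradient `G`, one has `E(u, B) ≤ E(v, B)`. -/
def IsMinimizer {m : ℕ} (u : E m → ℝ) : Prop :=
  ∀ (x₀ : E m) (R : ℝ), 0 < R → ∀ (v : E m → ℝ) (G : E m → E m),
    IsH10 (ball x₀ R) (fun x => v x - u x) (fun x => G x - gradient u x) →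
    energy (ball x₀ R) u (gradient u) ≤ energy (ball x₀ R) v G

/-- For every `m ≥ 5` the saddle-shaped solution in `ℝ^{2m}` is a minimizer. -/
theorem result (m : ℕ) (hm : 5 ≤ m) (u : E m → ℝ) (hu : IsSaddleShaped m u) : IsMinimizer u := by
  have hu' : Pool.Agent.Lib.MP_98c801_an.IsSaddleShaped m u :=
    ⟨hu.contDiff, hu.equation, hu.depends, hu.pos, hu.odd⟩
  intro x₀ R hR v G h
  exact Pool.Agent.Lib.MP_98c801_an.saddle_isMinimizer hm hu' x₀ R hR v G
    ⟨h.memLp, h.memLp_grad, h.approx⟩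

end

end Pool.Agent.Results.MP_98c801_an.SaddleMinimizer
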